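import Pool.Agent.Helper14.TT.StC

/-!
Module Sgn of project TT: signs of the twisted path under W and star.
-/

set_option autoImplicit false

namespace Pool.Agent.Helper12.TT

open Pool.Agent.Helper14.TT
open Pool.Agent.Helper14.CV
open Pool.Agent.Helper76.TX (RootNum eX evX evX_apply eX_congr NewSymS NSS BalES BalOS antiES antiOS antiFS Sg)

private theorem iter_comm {n l : ℕ} (hl : 0 < l) {a b c d : ℤ}
    (hS : ∀ G : ℤ → ℤ → ℂ, Sym 0 n G → Sym 0 n (Tl l 1 G))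
    (hC : ∀ G : ℤ → ℤ → ℂ, Sym 0 n G → EqC (Tl l 1 (act a b c d G)) (act a b c d (Tl l 1 G)))
    (i : ℕ) : ∀ G : ℤ → ℤ → ℂ, Sym 0 n G →
      EqC ((Tl l 1)^[i] (act a b c d G)) (act a b c d ((Tl l 1)^[i] G)) ∧ Sym 0 n ((Tl l 1)^[i] G) := by
  induction i with
  | zero => intro G hG; exact ⟨EqC.refl _, hG⟩
  | succ i ih =>
    intro G hG
    rw [Function.iterate_succ_apply, Function.iterate_succ_apply]
    have h1 := ih (Tl l 1 G) (hS G hG)
    exact ⟨((hC G hG).Tl_iter hl 1 i).trans h1.1, h1.2⟩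

private theorem key {n : ℕ} {a b c d : ℤ} (hHkS : StHkS)
    (hC : ∀ l : ℕ, l.Prime → l ≠ 2 → ∀ G : ℤ → ℤ → ℂ, Sym 0 n G →
      EqC (Tl l 1 (act a b c d G)) (act a b c d (Tl l 1 G)))
    (G : ℤ → ℤ → ℂ) (hG : Sym 0 n G) (i j : ℕ) :
    Sym 0 n ((Tl 3 1)^[i] ((Tl 5 1)^[j] G)) ∧
      EqC ((Tl 3 1)^[i] ((Tl 5 1)^[j] (act a b c d G)))
        (act a b c d ((Tl 3 1)^[i] ((Tl 5 1)^[j] G))) := by
  have hS : ∀ l : ℕ, l.Prime → l ≠ 2 → ∀ G : ℤ → ℤ → ℂ, Sym 0 n G → Sym 0 n (Tl l 1 G) :=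
    fun l hp h2 G hG => hHkS ℂ inferInstance n l G hp h2 hG
  have h5 := iter_comm (l := 5) (by norm_num) (hS 5 (by norm_num) (by norm_num))
    (hC 5 (by norm_num) (by norm_num)) j G hG
  have h3 := iter_comm (l := 3) (by norm_num) (hS 3 (by norm_num) (by norm_num))
    (hC 3 (by norm_num) (by norm_num)) i _ h5.2
  exact ⟨h3.2, (h5.1.Tl_iter (by norm_num) 1 i).trans h3.1⟩

/-- `H p l` depends only on `p` modulo `l`. -/
private theorem per {n l : ℕ} (hl : l ≠ 0) {H : ℤ → ℤ → ℂ} (hH : Sym 0 n H) (p k : ℤ) :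
    H (p + k * l) l = H p l := by
  obtain ⟨c, hc⟩ := hH.2 1 k 0 1 (by ring) (by simp) (dvd_zero _)
  have h1 := hc 1 0 (Or.inl one_ne_zero)
  have h2 := hc p l (Or.inr (by exact_mod_cast hl))
  simp only [act] at h1 h2
  have hc0 : c = 0 := by
    have : H 1 0 = H 1 0 + c := by simpa using h1
    simpa using this
  rw [hc0, add_zero] at h2
  simpa using h2

private theorem per' {n l : ℕ} (hl : l ≠ 0) {H : ℤ → ℤ → ℂ} (hH : Sym 0 n H) {p q : ℤ}
    (h : (p : ZMod l) = q) : H p l = H q l := by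
  obtain ⟨k, hk⟩ := (ZMod.intCast_eq_intCast_iff_dvd_sub p q l).1 h
  have : q = p + k * l := by linarith
  rw [this, per hl hH]

/-- the sum over the residues as a sum over `ZMod l` -/
private theorem sumZ {l : ℕ} [Fact l.Prime] (f : ℤ → ℂ)
    (hf : ∀ p q : ℤ, (p : ZMod l) = q → f p = f q) :
    ∑ a ∈ Finset.range l, jacobiSym (a : ℤ) l • f a =
      ∑ x : ZMod l, quadraticChar (ZMod l) x • f (x.val : ℤ) := by
  have hl : NeZero l := ⟨(Fact.out : l.Prime).ne_zero⟩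
  refine Finset.sum_bij (fun a _ => (a : ZMod l)) (fun _ _ => Finset.mem_univ _) ?_ ?_ ?_
  · intro a ha b hb hab
    have := (ZMod.natCast_eq_natCast_iff' a b l).1 hab
    rwa [Nat.mod_eq_of_lt (Finset.mem_range.1 ha), Nat.mod_eq_of_lt (Finset.mem_range.1 hb)] at this
  · intro x _
    exact ⟨x.val, Finset.mem_range.2 (ZMod.val_lt x), by simp⟩
  · intro a _
    rw [← jacobiSym.legendreSym.to_jacobiSym, legendreSym]
    congr 1
    · simp
    · apply hf
      simp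

private theorem eXZ {n l : ℕ} [Fact l.Prime] (hl3 : l ≠ 2) {H : ℤ → ℤ → ℂ} (hH : Sym 0 n H) :
    eX l H = ∑ x : ZMod l, quadraticChar (ZMod l) x • H (x.val : ℤ) l := by
  have hl0 : l ≠ 0 := (Fact.out : l.Prime).ne_zero
  unfold eX
  rw [sumZ (fun a : ℤ => H a l - H 1 0) (fun p q h => by simp only [per' hl0 hH h])]
  simp only [smul_sub, Finset.sum_sub_distrib, ← Finset.sum_smul]
  rw [quadraticChar_sum_zero (by rw [ZMod.ringChar_zmod_n]; exact hl3)]
  simp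

private theorem chi_neg {l : ℕ} [Fact l.Prime] (h4 : l % 4 = 3) (x : ZMod l) :
    quadraticChar (ZMod l) (-x) = -quadraticChar (ZMod l) x := by
  have h1 : quadraticChar (ZMod l) (-1) = -1 := by
    have hp : ringChar (ZMod l) ≠ 2 := by
      rw [ZMod.ringChar_zmod_n]; omega
    rw [quadraticChar_neg_one hp, ZMod.card]
    exact ZMod.χ₄_nat_three_mod_four h4
  rw [← neg_one_mul, map_mul, h1]
  ring

private theorem star_sign {n l : ℕ} [Fact l.Prime] (h4 : l % 4 = 3) {H : ℤ → ℤ → ℂ}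
    (hH : Sym 0 n H) (hHs : Sym 0 n (act (-1) 0 0 1 H)) :
    eX l (act (-1) 0 0 1 H) = -eX l H := by
  have hl0 : l ≠ 0 := (Fact.out : l.Prime).ne_zero
  haveI : NeZero l := ⟨hl0⟩
  rw [eXZ (by omega) hHs, eXZ (by omega) hH, ← Finset.sum_neg_distrib]
  refine Fintype.sum_equiv (Equiv.neg (ZMod l)) _ _ fun x => ?_
  rw [Equiv.neg_apply, chi_neg h4, neg_smul, neg_neg]
  congr 1
  simp only [act]
  have : H (-(x.val : ℤ)) l = H ((-x).val : ℤ) l := by
    apply per' hl0 hH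
    simp
  simpa using this

private theorem star_sym {n : ℕ} {H : ℤ → ℤ → ℂ} (hH : Sym 0 n H) : Sym 0 n (act (-1) 0 0 1 H) := by
  refine ⟨hH.1.act (by norm_num), fun a b c d hdet _ hc => ?_⟩
  rw [act_act]
  obtain ⟨k, hk⟩ := hH.2 a (-b) (-c) d (by linarith) (by simp) ((dvd_neg).2 hc)
  refine ⟨k, fun p q hpq => ?_⟩
  have h1 := hk (-p) q (by rcases hpq with h | h; exacts [Or.inl (neg_ne_zero.2 h), Or.inr h])
  simp only [act] at h1 ⊢
  have e1 : a * -p + -b * q = (-1 * a + 0 * c) * p + (-1 * b + 0 * d) * q := by ring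
  have e2 : -c * -p + d * q = (0 * a + 1 * c) * p + (0 * b + 1 * d) * q := by ring
  rw [e1, e2] at h1
  rw [h1]
  congr 1
  congr 1 <;> ring

private theorem hom_neg {n : ℕ} {H : ℤ → ℤ → ℂ} (hH : Sym 0 n H) : H 0 (-1) = H 0 1 := by
  have := hH.1 (-1) 0 1 (by norm_num) (Or.inr one_ne_zero)
  simpa using this

private theorem w_val {n l : ℕ} [Fact l.Prime] (h2 : l ≠ 2) {H : ℤ → ℤ → ℂ} (hH : Sym 0 n H) (x : ZMod l)
    (hx : x ≠ 0) :
    H (-(l : ℤ)) (2 ^ n * (x.val : ℤ)) = H 1 0 + H 0 1 - H (((-(2 ^ n * x)⁻¹ : ZMod l).val : ℕ) : ℤ) l := by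
  have hlp : l.Prime := Fact.out
  have hl0 : l ≠ 0 := hlp.ne_zero
  haveI : NeZero l := ⟨hl0⟩
  have h2n : (2 : ZMod l) ^ n ≠ 0 := by
    apply pow_ne_zero
    intro h
    have : ((2 : ℕ) : ZMod l) = 0 := by exact_mod_cast h
    rw [ZMod.natCast_eq_zero_iff] at this
    exact h2 ((Nat.prime_dvd_prime_iff_eq hlp Nat.prime_two).1 this)
  set y : ZMod l := -(2 ^ n * x)⁻¹ with hy
  have hprod : (2 ^ n * x) * y = -1 := by
    rw [hy, mul_neg, mul_inv_cancel₀ (mul_ne_zero h2n hx)]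
  have hdvd : (l : ℤ) ∣ 2 ^ n * (x.val : ℤ) * (y.val : ℤ) + 1 := by
    rw [← ZMod.intCast_zmod_eq_zero_iff_dvd]
    push_cast
    rw [ZMod.natCast_zmod_val, ZMod.natCast_zmod_val, hprod]
    ring
  obtain ⟨k, hk⟩ := hdvd
  obtain ⟨c, hc⟩ := hH.2 (-(l : ℤ)) (y.val : ℤ) (2 ^ n * (x.val : ℤ)) (-k) (by linarith) (by simp)
    (Dvd.intro _ rfl)
  have e1 := hc 1 0 (Or.inl one_ne_zero)
  have e2 := hc (y.val : ℤ) l (Or.inr (by exact_mod_cast hl0))
  simp only [act] at e1 e2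
  have e1' : H (-(l : ℤ)) (2 ^ n * (x.val : ℤ)) = H 1 0 + c := by simpa using e1
  have a1 : -(l : ℤ) * (y.val : ℤ) + (y.val : ℤ) * l = 0 := by ring
  have a2 : 2 ^ n * (x.val : ℤ) * (y.val : ℤ) + -k * l = -1 := by linarith
  rw [a1, a2, hom_neg hH] at e2
  rw [e1', e2]
  ring

private theorem w_sign {n l : ℕ} [Fact l.Prime] (h4 : l % 4 = 3) {H : ℤ → ℤ → ℂ}
    (hH : Sym 0 n H) (hHs : Sym 0 n (act 0 (-1) (2 ^ n) 0 H)) :
    eX l (act 0 (-1) (2 ^ n) 0 H) = ((jacobiSym 2 l : ℤ) ^ n : ℤ) • eX l H := by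
  have hl0 : l ≠ 0 := (Fact.out : l.Prime).ne_zero
  haveI : NeZero l := ⟨hl0⟩
  have h2 : l ≠ 2 := by omega
  rw [eXZ h2 hHs, eXZ h2 hH]
  have hval : ∀ x : ZMod l, quadraticChar (ZMod l) x • act 0 (-1) (2 ^ n) 0 H (x.val : ℤ) l =
      quadraticChar (ZMod l) x • (H 1 0 + H 0 1) -
        quadraticChar (ZMod l) x • H (((-(2 ^ n * x)⁻¹ : ZMod l).val : ℕ) : ℤ) l := by
    intro x
    by_cases hx : x = 0
    · subst hx; simp
    · rw [← smul_sub, ← w_val h2 hH x hx]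
      simp only [act]
      congr 2
      · ring
      · ring
  rw [Finset.sum_congr rfl fun x _ => hval x, Finset.sum_sub_distrib, ← Finset.sum_smul,
    quadraticChar_sum_zero (by rw [ZMod.ringChar_zmod_n]; exact h2), zero_smul, zero_sub,
    Finset.smul_sum, ← Finset.sum_neg_distrib]
  have h2n : (2 : ZMod l) ^ n ≠ 0 := by
    apply pow_ne_zero
    intro h
    have : ((2 : ℕ) : ZMod l) = 0 := by exact_mod_cast h
    rw [ZMod.natCast_eq_zero_iff] at this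
    exact h2 ((Nat.prime_dvd_prime_iff_eq Fact.out Nat.prime_two).1 this)
  have hinv : Function.Involutive (fun x : ZMod l => -(2 ^ n * x)⁻¹) := by
    intro x
    by_cases hx : x = 0
    · subst hx; simp
    · field_simp
  refine Fintype.sum_equiv (Function.Involutive.toPerm (fun x : ZMod l => -(2 ^ n * x)⁻¹) hinv) _ _ fun x => ?_
  have e3 : Function.Involutive.toPerm (fun x : ZMod l => -(2 ^ n * x)⁻¹) hinv x = -(2 ^ n * x)⁻¹ := rfl
  rw [e3]
  by_cases hx : x = 0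
  · subst hx; simp
  have hj : (jacobiSym 2 l : ℤ) = quadraticChar (ZMod l) 2 := by
    rw [← jacobiSym.legendreSym.to_jacobiSym, legendreSym]; simp
  rw [← neg_smul, smul_smul, hj]
  congr 1
  rw [chi_neg h4, ← map_pow]
  have hu : quadraticChar (ZMod l) (2 ^ n) * quadraticChar (ZMod l) ((2 ^ n * x)⁻¹) =
      quadraticChar (ZMod l) x := by
    rw [← map_mul]
    have : (2 : ZMod l) ^ n * (2 ^ n * x)⁻¹ = x⁻¹ := by field_simp
    rw [this]
    have h1 : quadraticChar (ZMod l) x⁻¹ * quadraticChar (ZMod l) x = 1 := by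
      rw [← map_mul, inv_mul_cancel₀ hx, map_one]
    have h3 : quadraticChar (ZMod l) x * quadraticChar (ZMod l) x = 1 := by
      rw [← sq]; exact quadraticChar_sq_one hx
    have h5 := congrArg (· * quadraticChar (ZMod l) x) h1
    simp only [mul_assoc, h3, mul_one, one_mul] at h5
    exact h5
  rw [mul_neg, hu]

private theorem w_sym {n : ℕ} {H : ℤ → ℤ → ℂ} (hH : Sym 0 n H) :
    Sym 0 n (act 0 (-1) (2 ^ n) 0 H) := by
  refine ⟨hH.1.act (by norm_num), fun a b c d hdet _ hc => ?_⟩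
  obtain ⟨c', rfl⟩ := hc
  rw [act_act]
  obtain ⟨k, hk⟩ := hH.2 d (-c') (-(2 ^ n * b)) a (by linarith) (by simp) ((dvd_neg).2 (Dvd.intro _ rfl))
  refine ⟨k, fun p q hpq => ?_⟩
  have h1 := hk (-q) (2 ^ n * p) (by
    rcases hpq with h | h
    · exact Or.inr (mul_ne_zero (by positivity) h)
    · exact Or.inl (neg_ne_zero.2 h))
  simp only [act] at h1 ⊢
  have e1 : d * -q + -c' * (2 ^ n * p) = (0 * a + -1 * (2 ^ n * c')) * p + (0 * b + -1 * d) * q := by
    ring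
  have e2 : -(2 ^ n * b) * -q + a * (2 ^ n * p) =
      (2 ^ n * a + 0 * (2 ^ n * c')) * p + (2 ^ n * b + 0 * d) * q := by ring
  rw [e1, e2] at h1
  rw [h1]
  congr 1
  congr 1 <;> ring

/-- Module SGN. -/
theorem hSgn (hkS : StHkS) (hkW : StHkW) (hkT : StHkT) : Sgn := by
  intro l n G hl h4 _ hG
  haveI : Fact l.Prime := ⟨hl⟩
  have hl0 : l ≠ 0 := hl.ne_zero
  constructor
  · funext i j
    obtain ⟨hS, hE⟩ := key hkS (fun l hp h2 G hG => hkW ℂ inferInstance n l G hp h2 hG) G hG i j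
    rw [evX_apply, eX_congr hl0 hE, w_sign h4 hS (w_sym hS)]
    rfl
  · funext i j
    obtain ⟨hS, hE⟩ := key hkS (fun l hp h2 G hG => hkT ℂ inferInstance n l G hp h2 hG) G hG i j
    rw [evX_apply, eX_congr hl0 hE, star_sign h4 hS (star_sym hS)]
    rfl

end Pool.Agent.Helper12.TT
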