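import Pool.Agent.Helper25.KW.Top2

set_option autoImplicit false
set_option linter.unusedSectionVars false
set_option linter.unusedVariables false

/-!
# The element of the T-lemma in the abstract worlds (`2 a ≤ b`)
-/

namespace Helper12.TT

open Helper11.N1 Helper55.KE Helper25.FLT Helper25.KW

/-- for `2 a ≤ b` there is a cluster with `|x| < a - |c|`, `|c| < |s| < a` -/
def TTF (p a b c l ds : ℤ) (D : ℝ) (Cl : ℤ → ℤ → ℤ → ℤ → ℝ → Prop) : Prop :=
  2 * a ≤ b → ∃ (N X R : ℤ) (I : ℝ), Cl N 0 X R I ∧ 0 < N ∧ N < p ∧ N ≠ l ∧ N + l ≠ p ∧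
    0 < I ∧ I < D ∧ |(X : ℝ) + ds * I| < a - |(c : ℝ)| ∧ |(c : ℝ)| < |(X : ℝ) + ds * I + R| ∧
    |(X : ℝ) + ds * I + R| < a

section

variable {p q a b c : ℕ} [NeZero p] [NeZero q] {z : ZMod p → ZMod (p * q)} {i0 ρ : ZMod p}
  {θ : ZMod (p * q)} {δ l : ℕ} {k : ℤ} {s ds J : ℤ}

theorem ttf (h : SG p q a b c z i0 ρ θ δ l k s ds J) {D dl : ℝ}
    (W : Base p a b k J ds l q D dl (ClS p q c ρ θ s ds)) (h2b : 2 * b < p) (hk0 : k ≠ 0)
    (hka : |k| < a) : TTF p a b k l ds D (ClS p q c ρ θ s ds) := by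
  intro hab
  obtain ⟨n, x, r, hn0, hnp, hnl, hnpl, hAt, hx1, hx2, hx3⟩ :=
    Helper12.TL.tk h.ls hk0 hka (by exact_mod_cast hab) h2b
  have hq := h.q0
  have hqR := h.q0R
  obtain ⟨X, I, hK, hxI⟩ := h.khAt (P := P1 l p) hn0 hnp
    ⟨by exact_mod_cast hnl, by exact_mod_cast hnpl⟩ hAt (by
      refine lt_of_lt_of_le hx1 ?_
      rw [mul_comm]
      apply mul_le_mul_of_nonneg_right _ hq.le
      have := abs_nonneg k
      omega) hx3
  have hxq : ((X : ℝ) + ds * I) * q = x := by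
    rw [hxI]
    field_simp
  have hN0 := hK.N0
  have hNp := hK.Np
  refine ⟨n, X, r, I, hK.cl, hN0, hNp, by exact_mod_cast hnl, by exact_mod_cast hnpl,
    (W.pos0 hK.cl).2 hN0, (W.ltp0 hK.cl).2 hNp, ?_, ?_, ?_⟩
  · have h8 : |(x : ℝ)| < q * (a - |(k : ℝ)|) := by exact_mod_cast hx1
    rw [← hxq, abs_mul, abs_of_pos hqR, mul_comm] at h8
    have h9 := lt_of_mul_lt_mul_left h8 hqR.le
    push_cast
    exact h9
  · have h8 : |(k : ℝ)| * q < |(x : ℝ) + r * q| := by exact_mod_cast hx2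
    have h9 : (x : ℝ) + r * q = ((X : ℝ) + ds * I + r) * q := by rw [add_mul, hxq]
    rw [h9, abs_mul, abs_of_pos hqR] at h8
    exact lt_of_mul_lt_mul_right h8 hqR.le
  · have h8 : |(x : ℝ) + r * q| < a * q := by exact_mod_cast hx3
    have h9 : (x : ℝ) + r * q = ((X : ℝ) + ds * I + r) * q := by rw [add_mul, hxq]
    rw [h9, abs_mul, abs_of_pos hqR] at h8
    exact_mod_cast lt_of_mul_lt_mul_right h8 hqR.le

end

end Helper12.TT
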